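import Pool.Agent.H64.FTM.Targets
import Pool.Agent.H10.EV.TS3

/-!
# Row BRM: the space `Tau`
-/

set_option autoImplicit false
set_option linter.unusedSectionVars false

open Matrix Pool.Agent.H64.CC Pool.Agent.H2.NL Pool.Agent.H2.KM Pool.Agent.H64.EV Pool.Agent.H64.FTM
open Pool.Agent.H64.EK hiding kap

namespace Pool.Agent.H2.FTM

section lists

variable {K : Type} [Field K] {I : Type} [Fintype I]

theorem sw_tp (o : I → Bool) (j n : ℕ) (hj : j + 2 ≤ n) (t t' : List I → K) (w : List I)
    (hw : n ≤ w.length) : sw o j (tp n t t') w = tp n (sw o j t) t' w := by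
  obtain ⟨α, a, b, β, rfl, rfl⟩ := exists_split j w (by omega)
  obtain ⟨m, rfl⟩ := Nat.exists_eq_add_of_le hj
  rw [sw_append]
  unfold tp
  have h1 : ∀ c d : I, (α ++ c :: d :: β).take (α.length + 2 + m) = α ++ c :: d :: β.take m := by
    intro c d
    rw [List.take_append, List.take_of_length_le (by omega),
      show α.length + 2 + m - α.length = m + 2 by omega]
    rfl
  have h2 : ∀ c d : I, (α ++ c :: d :: β).drop (α.length + 2 + m) = β.drop m := by
    intro c d
    rw [List.drop_append, List.drop_of_length_le (by omega),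
      show α.length + 2 + m - α.length = m + 2 by omega]
    rfl
  rw [h1, h2, h1, h2, sw_append]
  ring

theorem sws_congr (o : I → Bool) (n : ℕ) (t t' : List I → K)
    (h : ∀ w : List I, w.length = n → t w = t' w) : ∀ js : List ℕ, (∀ j ∈ js, j + 2 ≤ n) →
    ∀ w : List I, w.length = n → sws o js t w = sws o js t' w
  | [], _, w, hw => h w hw
  | j :: js, hj, w, hw =>
    sw_congr o j n _ _ (sws_congr o n t t' h js fun i hi => hj i (List.mem_cons_of_mem _ hi))
      (hj j List.mem_cons_self) w hw

theorem sws_tp (o : I → Bool) (n : ℕ) (t t' : List I → K) : ∀ js : List ℕ,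
    (∀ j ∈ js, j + 2 ≤ n) → ∀ w : List I, n ≤ w.length →
    sws o js (tp n t t') w = tp n (sws o js t) t' w
  | [], _, w, hw => rfl
  | j :: js, hj, w, hw => by
    have h1 : sws o (j :: js) (tp n t t') w = sw o j (sws o js (tp n t t')) w := rfl
    rw [h1, sw_congr o j w.length (sws o js (tp n t t')) (tp n (sws o js t) t')
      (fun w' hw' => sws_tp o n t t' js (fun i hi => hj i (List.mem_cons_of_mem _ hi)) w'
        (by omega)) (le_trans (hj j List.mem_cons_self) hw) w rfl,
      sw_tp o j n (hj j List.mem_cons_self) _ _ w hw]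
    rfl

theorem sws_append (o : I → Bool) (js js' : List ℕ) (t : List I → K) :
    sws o (js ++ js') t = sws o js (sws o js' t) := by
  unfold sws
  rw [List.foldr_append]

theorem sws_succ (o : I → Bool) (t : List I → K) (c : I) : ∀ (js : List ℕ) (w : List I),
    sws o (js.map (· + 1)) t (c :: w) = sws o js (fun u => t (c :: u)) w
  | [], _ => rfl
  | j :: js, w => by
    show sw o j (fun l' => sws o (js.map (· + 1)) t (c :: l')) w = _
    have h : (fun l' => sws o (js.map (· + 1)) t (c :: l')) = sws o js (fun u => t (c :: u)) :=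
      funext fun l' => sws_succ o t c js l'
    rw [h]
    rfl

/-- an even tensor of order two can be moved from the end to the front -/
theorem move_two (o : I → Bool) (s : Matrix I I K) (hs : ∀ a b, s a b ≠ 0 → o a = o b) :
    ∀ n : ℕ, ∃ js : List ℕ, (∀ j ∈ js, j + 2 ≤ n + 2) ∧ ∀ (T : List I → K) (w : List I),
      w.length = n + 2 → tp n T (two s) w = sws o js (tp 2 (two s) T) w
  | 0 => by
    refine ⟨[], by simp, fun T w hw => ?_⟩
    match w, hw with
    | [a, b], _ =>
      show T [] * s a b = s a b * T []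
      ring
  | n + 1 => by
    obtain ⟨js, h1, h2⟩ := move_two o s hs n
    refine ⟨js.map (· + 1) ++ [0, 1], ?_, fun T w hw => ?_⟩
    · intro j hj
      rw [List.mem_append] at hj
      rcases hj with hj | hj
      · obtain ⟨i, hi, rfl⟩ := List.mem_map.1 hj
        have := h1 i hi
        show i + 1 + 2 ≤ n + 1 + 2
        omega
      · simp only [List.mem_cons, List.not_mem_nil, or_false] at hj
        omega
    · match w, hw with
      | c :: w', hw =>
        have hw' : w'.length = n + 2 := by simpa using hw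
        rw [sws_append, sws_succ]
        have h3 : tp (n + 1) T (two s) (c :: w') = tp n (fun u => T (c :: u)) (two s) w' := rfl
        rw [h3, h2 _ w' hw']
        refine sws_congr o (n + 2) _ _ (fun u hu => ?_) js h1 w' hw'
        match u, hu with
        | a :: b :: l, _ =>
          show s a b * T (c :: l) = ks K (o c) (o a) * (ks K (o c) (o b) * (s a b * T (c :: l)))
          by_cases h : s a b = 0
          · rw [h]
            ring
          · rw [hs a b h]
            linear_combination (-(s a b * T (c :: l))) * ks_mul_self (K := K) (o c) (o b)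

theorem tp_tp (i : ℕ) (s u t : List I → K) :
    tp 2 s (tp i u t) = tp (2 + i) (tp 2 s u) t := by
  funext w
  unfold tp
  rw [List.take_take, List.drop_take, List.drop_drop, min_eq_left (by omega),
    show 2 + i - 2 = i by omega]
  ring

theorem ev_congr (m : ℕ) (t t' : List I → K) (h : ∀ w : List I, w.length = m → t w = t' w) :
    ev m t = ev m t' := by
  funext w
  exact h _ (List.length_ofFn)

/-- a function on the words of length `m`, as a function on lists -/
def lf {m : ℕ} (y : (Fin m → I) → K) (w : List I) : K :=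
  if h : w.length = m then y (fun i => w.get (i.cast h.symm)) else 0

theorem ev_lf {m : ℕ} (y : (Fin m → I) → K) : ev m (lf y) = y := by
  funext w
  unfold ev lf
  rw [dif_pos List.length_ofFn]
  congr 1
  funext i
  simp

theorem lf_ofFn {m : ℕ} (y : (Fin m → I) → K) (w : Fin m → I) : lf y (List.ofFn w) = y w := by
  have := congrFun (ev_lf y) w
  exact this

end lists

section main

variable {K : Type} [Field K] [CharZero K] {J E : Type} [Fintype J] [DecidableEq J]
  [Fintype E] [DecidableEq E] (F : OForm K J) (G : OForm K E)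
  (A : ℕ → Submodule ℚ (List (J ⊕ E) → K))

theorem omk_mem (hA : MCal F G A) : ∀ i : ℕ, omk (Om F E) i ∈ A i
  | 0 => hA.calculus.one
  | i + 1 => by
    have h := hA.calculus.tp 1 i _ _ hA.omR (omk_mem hA i)
    rw [Nat.add_comm 1 i] at h
    exact h

theorem exists_perm (hACT : T_ACT) {I : Type} (o : I → Bool) (m : ℕ) (t : List I → K) :
    ∀ js : List ℕ, (∀ j ∈ js, j + 2 ≤ m) →
      ∃ σ : Equiv.Perm (Fin m), ev m (sws o js t) = ac o σ (ev m t)
  | [], _ => ⟨1, ((hACT K I o m).2.1 _).symm⟩
  | j :: js, hj => by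
    obtain ⟨σ, hσ⟩ := exists_perm hACT o m t js fun i hi => hj i (List.mem_cons_of_mem _ hi)
    have hjm := hj j List.mem_cons_self
    refine ⟨Equiv.swap ⟨j, by omega⟩ ⟨j + 1, by omega⟩ * σ, ?_⟩
    have h1 := (hACT K I o m).2.2.1 j (by omega) (sws o js t)
    rw [(hACT K I o m).1, ← hσ]
    exact h1

/-- the linear map of a permutation -/
def acl {I : Type} (o : I → Bool) {m : ℕ} (σ : Equiv.Perm (Fin m)) :
    ((Fin m → I) → K) →ₗ[ℚ] ((Fin m → I) → K) where
  toFun := ac o σ
  map_add' f g := by
    funext w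
    show kap o σ w * (f _ + g _) = kap o σ w * f _ + kap o σ w * g _
    ring
  map_smul' q f := by
    funext w
    show kap o σ w * (q • f _) = q • (kap o σ w * f _)
    rw [mul_smul_comm]

/-- the product with the class of the diagonal, in the last two places -/
def tO (s : Matrix (J ⊕ E) (J ⊕ E) K) (k : ℕ) :
    ((Fin (2 * k) → J ⊕ E) → K) →ₗ[ℚ] ((Fin (2 * (k + 1)) → J ⊕ E) → K) where
  toFun g := ev (2 * (k + 1)) (tp (2 * k) (lf g) (two s))
  map_add' f g := by
    funext w
    have h : ∀ u : List (J ⊕ E), lf (f + g) u = lf f u + lf g u := by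
      intro u
      unfold lf
      split_ifs
      · rfl
      · ring
    show lf (f + g) _ * two s _ = lf f _ * two s _ + lf g _ * two s _
    rw [h]
    ring
  map_smul' q f := by
    funext w
    have h : ∀ u : List (J ⊕ E), lf (q • f) u = q • lf f u := by
      intro u
      unfold lf
      split_ifs
      · rfl
      · rw [smul_zero]
    show lf (q • f) _ * two s _ = q • (lf f _ * two s _)
    rw [h, smul_mul_assoc]

theorem tau_tO (hACT : T_ACT) (z : K) (b k : ℕ) (g : (Fin (2 * k) → J ⊕ E) → K)
    (hg : g ∈ Tau F G A z b k) : tO (Om F E) k g ∈ Tau F G A z b (k + 1) := by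
  have h : Tau F G A z b k ≤ (Tau F G A z b (k + 1)).comap (tO (Om F E) k) := by
    unfold Tau
    rw [Submodule.span_le]
    rintro f ⟨i, hi, t, ht, hB, σ, rfl⟩
    apply Submodule.subset_span
    have hpar : ∀ x y : J ⊕ E, Om F E x y ≠ 0 → (osum F G).o x = (osum F G).o y := by
      intro x y hxy
      rcases x with x | x <;> rcases y with y | y
      · have h1 : F.ω x y ≠ 0 := hxy
        unfold OForm.ω at h1
        rw [Matrix.of_apply] at h1
        by_cases h2 : y = F.st x
        · show F.o x = F.o y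
          rw [h2, F.o_st]
        · exact absurd (if_neg h2) h1
      · exact absurd rfl hxy
      · exact absurd rfl hxy
      · exact absurd rfl hxy
    obtain ⟨js, hj1, hj2⟩ := (hACT K (J ⊕ E) (osum F G).o (2 * k)).2.2.2 σ
    obtain ⟨js', hj1', hj2'⟩ := move_two (K := K) (osum F G).o (Om F E) hpar (2 * k)
    obtain ⟨σ', hσ'⟩ := exists_perm hACT (osum F G).o (2 * (k + 1))
      (tp (2 * (i + 1)) (omk (Om F E) (i + 1)) t) (js ++ js') (by
        intro j hj
        rcases List.mem_append.1 hj with hj | hj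
        · have := hj1 j hj
          omega
        · have := hj1' j hj
          omega)
    refine ⟨i + 1, by omega, t, ?_, ?_, σ', ?_⟩
    · rw [Nat.succ_sub_succ_eq_sub]
      exact ht
    · rw [Nat.succ_sub_succ_eq_sub]
      exact hB
    · rw [← hσ']
      show ev (2 * (k + 1)) (tp (2 * k) (lf _) (two (Om F E))) = _
      refine ev_congr _ _ _ fun w hw => ?_
      have e1 : tp (2 * k) (lf (ac (osum F G).o σ (ev (2 * k)
          (tp (2 * i) (omk (Om F E) i) t)))) (two (Om F E)) w =
          tp (2 * k) (sws (osum F G).o js (tp (2 * i) (omk (Om F E) i) t)) (two (Om F E)) w := by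
        rw [← hj2]
        unfold tp
        congr 1
        have h2 : (w.take (2 * k)).length = 2 * k := by
          rw [List.length_take]
          omega
        obtain ⟨v, hv⟩ : ∃ v : Fin (2 * k) → J ⊕ E, List.ofFn v = w.take (2 * k) :=
          ⟨fun i => (w.take (2 * k)).get (i.cast h2.symm), by
            apply List.ext_get
            · simp [h2]
            · intro n h1 h2
              simp⟩
        rw [← hv, lf_ofFn]
        rfl
      rw [e1, ← sws_tp _ _ _ _ js hj1 w (by omega), sws_append]
      refine sws_congr _ (2 * k + 2) _ _ (fun u hu => ?_) js (fun j hj => by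
        have := hj1 j hj
        omega) w (by omega)
      rw [hj2' _ u hu]
      have e2 : tp 2 (two (Om F E)) (tp (2 * i) (omk (Om F E) i) t) =
          tp (2 * (i + 1)) (omk (Om F E) (i + 1)) t := by
        rw [tp_tp, Nat.add_comm 2 (2 * i)]
        rfl
      rw [e2]
  exact h hg

theorem Tau_le (hAFA : T_AFA) (hA : MCal F G A) (z : K) (b k : ℕ) :
    Tau F G A z b k ≤ Af A k := by
  unfold Tau
  rw [Submodule.span_le]
  rintro f ⟨i, hi, t, ht, -, σ, rfl⟩
  refine (hAFA K (J ⊕ E) _ _ _ A hA.calculus).2 k σ _ ⟨_, ?_, rfl⟩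
  have h := hA.calculus.tp i (k - i) _ _ (omk_mem F G A hA i) ht
  rwa [Nat.add_sub_cancel' hi] at h

theorem Tau_ac (hACT : T_ACT) (z : K) (b k : ℕ) (σ : Equiv.Perm (Fin (2 * k)))
    (f : (Fin (2 * k) → J ⊕ E) → K) (hf : f ∈ Tau F G A z b k) :
    ac (osum F G).o σ f ∈ Tau F G A z b k := by
  have h : Tau F G A z b k ≤ (Tau F G A z b k).comap (acl (osum F G).o σ) := by
    conv_lhs => unfold Tau
    rw [Submodule.span_le]
    rintro f ⟨i, hi, t, ht, hB, σ', rfl⟩
    apply Submodule.subset_span
    exact ⟨i, hi, t, ht, hB, σ * σ', ((hACT K (J ⊕ E) (osum F G).o (2 * k)).1 σ σ' _).symm⟩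
  exact h hf

include F G in
theorem lf_rvf (hPRF : T_PRF) {m : ℕ} (y : (Fin m → J ⊕ E) → K) (w : List (J ⊕ E))
    (hw : w.length = m) : lf (rvf y) w = lf y w.reverse := by
  have h := (hPRF K (J ⊕ E) (osum F G) m).2.2.2 (lf y)
  rw [ev_lf] at h
  rw [← h]
  subst hw
  have h2 : ∀ t : List (J ⊕ E) → K, lf (ev w.length t) w = t w := by
    intro t
    unfold lf ev
    rw [dif_pos rfl]
    congr 1
    apply List.ext_get
    · simp
    · intro n h1 h2
      simp
  rw [h2]
  rfl

/-- the dual of the contraction -/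
def Yp {k : ℕ} (y : (Fin (2 * k) → J ⊕ E) → K) : List (J ⊕ E) → K
  | p :: q :: l => Om F E q p * lf y l
  | _ => 0

include G in
theorem rvf_Yp (hPRF : T_PRF) {k : ℕ} (y : (Fin (2 * k) → J ⊕ E) → K) :
    rvf (ev (2 * (k + 1)) (Yp F y)) = tO (Om F E) k (rvf y) := by
  rw [← (hPRF K (J ⊕ E) (osum F G) (2 * (k + 1))).2.2.2 (Yp F y)]
  show _ = ev (2 * (k + 1)) (tp (2 * k) (lf (rvf y)) (two (Om F E)))
  refine ev_congr _ _ _ fun w hw => ?_
  obtain ⟨α, q, p, β, hα, rfl⟩ := exists_split (2 * k) w (by omega)
  have hβ : β = [] := by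
    rw [← List.length_eq_zero_iff]
    simp at hw
    omega
  subst hβ
  have e0 : tp (2 * k) (lf (rvf y)) (two (Om F E)) (α ++ [q, p]) =
      lf (rvf y) α * two (Om F E) [q, p] := by
    have := tp_append (lf (rvf y)) (two (Om F E)) α [q, p]
    rwa [hα] at this
  rw [e0, lf_rvf F G hPRF y α hα]
  have e : rv (Yp F y) (α ++ [q, p]) = Om F E q p * lf y α.reverse := by
    unfold rv
    rw [List.reverse_append]
    rfl
  rw [e]
  show _ = _ * Om F E q p
  ring

theorem Om_ne {x y : J ⊕ E} (h : Om F E x y ≠ 0) : ∃ a b : J, x = Sum.inl a ∧ y = Sum.inl b := by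
  rcases x with x | x <;> rcases y with y | y
  · exact ⟨x, y, rfl, rfl⟩
  · exact absurd rfl h
  · exact absurd rfl h
  · exact absurd rfl h

theorem pr_Yp (hPRF : T_PRF) {k a : ℕ} (x : List (J ⊕ E) → K) (y : (Fin (2 * k) → J ⊕ E) → K)
    (hx : Ty (2 * (k + 1)) (a + 2) x) :
    pr (osum F G) (ev (2 * k) (con (osum F G).η 0 x)) y =
      pr (osum F G) (ev (2 * (k + 1)) x) (ev (2 * (k + 1)) (Yp F y)) := by
  conv_lhs => rw [← ev_lf y]
  rw [← (hPRF K (J ⊕ E) (osum F G) (2 * k)).1, ← (hPRF K (J ⊕ E) (osum F G) (2 * (k + 1))).1]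
  have e1 : (osum F G).Pr (2 * k) (con (osum F G).η 0 x) (lf y) =
      ∑ u, (osum F G).c u * (osum F G).Pr (2 * k) (fun l => x (u :: (osum F G).st u :: l))
        (lf y) := by
    have h1 : con (osum F G).η 0 x = fun l => ∑ u, (osum F G).c u *
        x (u :: (osum F G).st u :: l) := funext fun l => (osum F G).con_append [] x l
    rw [h1, Pool.Agent.H10.EV.Pr_sum]
    refine Finset.sum_congr rfl fun u _ => ?_
    have h2 := Pool.Agent.H10.EV.Pr_smul (osum F G) ((osum F G).c u) 1 (2 * k)
      (fun l => x (u :: (osum F G).st u :: l)) (lf y)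
    simp only [one_mul, mul_one] at h2
    exact h2
  rw [e1]
  show _ = ∑ u, (osum F G).c u * ∑ v, (osum F G).c v * (osum F G).Pr (2 * k)
    (fun l => x (u :: v :: l)) (fun l => Om F E ((osum F G).st v) ((osum F G).st u) * lf y l)
  refine Finset.sum_congr rfl fun u _ => ?_
  have e2 : ∀ v, (osum F G).Pr (2 * k) (fun l => x (u :: v :: l))
      (fun l => Om F E ((osum F G).st v) ((osum F G).st u) * lf y l) =
      Om F E ((osum F G).st v) ((osum F G).st u) *
        (osum F G).Pr (2 * k) (fun l => x (u :: v :: l)) (lf y) := by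
    intro v
    have h2 := Pool.Agent.H10.EV.Pr_smul (osum F G) 1
      (Om F E ((osum F G).st v) ((osum F G).st u)) (2 * k) (fun l => x (u :: v :: l)) (lf y)
    simp only [one_mul] at h2
    exact h2
  simp_rw [e2]
  congr 1
  rcases u with u | u
  · rw [Fintype.sum_sum_type]
    have e3 : ∀ v : E, (osum F G).c (Sum.inr v) * (Om F E ((osum F G).st (Sum.inr v))
        ((osum F G).st (Sum.inl u)) * (osum F G).Pr (2 * k)
        (fun l => x (Sum.inl u :: Sum.inr v :: l)) (lf y)) = 0 := by
      intro v
      have : Om F E ((osum F G).st (Sum.inr v)) ((osum F G).st (Sum.inl u)) = 0 := rfl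
      rw [this, zero_mul, mul_zero]
    rw [Finset.sum_eq_zero (s := (Finset.univ : Finset E)) (fun v _ => e3 v), add_zero,
      Finset.sum_eq_single (F.st u)]
    · have h3 : Om F E ((osum F G).st (Sum.inl (F.st u))) ((osum F G).st (Sum.inl u)) =
          (F.c (F.st u))⁻¹ := by
        show F.ω (F.st (F.st u)) (F.st u) = _
        unfold OForm.ω
        rw [Matrix.of_apply, if_pos (by rw [F.st_st])]
      rw [h3]
      show _ = F.c (F.st u) * ((F.c (F.st u))⁻¹ * _)
      rw [← mul_assoc, mul_inv_cancel₀ (F.c_ne _), one_mul]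
      rfl
    · intro v _ hv
      have h3 : Om F E ((osum F G).st (Sum.inl v)) ((osum F G).st (Sum.inl u)) = 0 := by
        show F.ω (F.st v) (F.st u) = _
        unfold OForm.ω
        rw [Matrix.of_apply, if_neg]
        intro h
        apply hv
        rw [F.st_st] at h
        exact h.symm
      rw [h3, zero_mul, mul_zero]
    · intro h
      exact absurd (Finset.mem_univ _) h
  · have e3 : ∀ v, Om F E ((osum F G).st v) ((osum F G).st (Sum.inr u)) = 0 := by
      intro v
      rcases v with v | v <;> rfl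
    simp_rw [e3]
    simp only [zero_mul, mul_zero, Finset.sum_const_zero]
    have h4 : (osum F G).Pr (2 * k) (fun l => x (Sum.inr u :: (osum F G).st (Sum.inr u) :: l))
        (lf y) = (osum F G).Pr (2 * k) (fun l => 0 * (fun _ => 1 : List (J ⊕ E) → K) l)
          (fun l => 1 * lf y l) := by
      refine Pool.Agent.H10.EV.Pr_congr (osum F G) (2 * k) _ _ _ _ (fun w hw => ?_) fun w _ =>
        (one_mul _).symm
      rw [zero_mul]
      by_contra h
      obtain ⟨u', v', hu', he⟩ := hx _ (by simp; omega) h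
      match u', hu' with
      | c :: u', _ =>
        rw [List.map_cons, List.cons_append, List.cons.injEq] at he
        exact Sum.inr_ne_inl he.1
    rw [h4, Pool.Agent.H10.EV.Pr_smul, zero_mul, zero_mul]

/-- BRM -/
theorem pf_BRM (hACT : T_ACT) (hAFA : T_AFA) (hTYB : T_TYB) (hPRF : T_PRF) : T_BRM := by
  intro K _ _ J E _ _ _ _ F G A hA z b
  refine ⟨Tau_le F G A hAFA hA z b, Tau_ac F G A hACT z b, ?_⟩
  intro k a x y ha hx hy hya
  refine ⟨ev (2 * (k + 1)) (Yp F y), ?_, ?_, pr_Yp F G hPRF x y hx⟩
  · rw [rvf_Yp F G hPRF]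
    exact tau_tO F G A hACT z b k _ hy
  · rw [← (hTYB K J E (2 * (k + 1)) (a + 2) (by omega)).1]
    have hly : Ty (2 * k) a (lf y) := by
      rw [(hTYB K J E (2 * k) a ha).1, ev_lf]
      exact hya
    intro w hw hne
    match w, hw, hne with
    | p :: q :: l, hw, hne =>
      have hne' : Om F E q p * lf y l ≠ 0 := hne
      obtain ⟨q', p', rfl, rfl⟩ := Om_ne F (left_ne_zero_of_mul hne')
      obtain ⟨u, v, hu, hl⟩ := hly l (by simp at hw; omega) (right_ne_zero_of_mul hne')
      exact ⟨p' :: q' :: u, v, by simp [hu], by rw [hl]; rfl⟩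

end main

end Pool.Agent.H2.FTM
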