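import Pool.Agent.H64.FTM.Targets

/-!
# Rows INO and INE: the main theorem
-/

set_option autoImplicit false
set_option linter.unusedSectionVars false

open Matrix Pool.Agent.H64.CC Pool.Agent.H2.NL Pool.Agent.H2.KM Pool.Agent.H64.EV Pool.Agent.H64.FTM
open Pool.Agent.H64.EK hiding kap

namespace Pool.Agent.H2.FTM

section chi

variable {K : Type} [Field K] {α : Type} [Fintype α] [DecidableEq α]

theorem neg_one_units : (-1 : ℤˣ) ≠ 1 := by decide

theorem chi_mul {z : K} (hz : z = 1 ∨ z = -1) (σ τ : Equiv.Perm α) :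
    chi z (σ * τ) = chi z σ * chi z τ := by
  have hzz : z * z = 1 := by
    rcases hz with rfl | rfl
    · ring
    · ring
  unfold chi
  rw [map_mul]
  rcases Int.units_eq_one_or (Equiv.Perm.sign σ) with h | h <;>
    rcases Int.units_eq_one_or (Equiv.Perm.sign τ) with h' | h' <;> rw [h, h']
  · simp
  · rw [one_mul, if_neg neg_one_units, if_pos rfl, one_mul]
  · rw [mul_one, if_neg neg_one_units, if_pos rfl, mul_one]
  · rw [if_neg neg_one_units, if_pos (by decide), hzz]

theorem chi_one (z : K) : chi z (1 : Equiv.Perm α) = 1 := by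
  unfold chi
  rw [map_one, if_pos rfl]

theorem chi_inv (z : K) (σ : Equiv.Perm α) : chi z σ⁻¹ = chi z σ := by
  unfold chi
  rw [Equiv.Perm.sign_inv]

theorem chi_swap (z : K) {i j : α} (h : i ≠ j) : chi z (Equiv.swap i j) = z := by
  unfold chi
  rw [Equiv.Perm.sign_swap h, if_neg neg_one_units]

theorem mem_HL {L : Finset α} {σ : Equiv.Perm α} : σ ∈ HL L ↔ ∀ i, i ∉ L → σ i = i := by
  unfold HL
  rw [Finset.mem_filter]
  exact ⟨fun h => h.2, fun h => ⟨Finset.mem_univ _, h⟩⟩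

theorem chi_sq {z : K} (hz : z = 1 ∨ z = -1) (σ : Equiv.Perm α) : chi z σ * chi z σ = 1 := by
  rw [← chi_inv z σ, ← chi_mul hz]
  have : σ⁻¹ * σ⁻¹ = σ⁻¹ * σ⁻¹ := rfl
  rw [chi_mul hz, chi_inv, ← chi_inv z σ]
  conv_lhs => rw [chi_inv]
  unfold chi
  rcases Int.units_eq_one_or (Equiv.Perm.sign σ) with h | h
  · rw [h, if_pos rfl, one_mul]
  · rw [h, if_neg neg_one_units]
    rcases hz with rfl | rfl
    · ring
    · ring

end chi

section lin

variable {K : Type} [Field K] {I : Type} [Fintype I] [DecidableEq I]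

/-- the pairing with `y` -/
def prl (F : OForm K I) {m : ℕ} (y : (Fin m → I) → K) : ((Fin m → I) → K) →ₗ[K] K where
  toFun f := pr F f y
  map_add' f g := by
    unfold pr
    rw [← Finset.sum_add_distrib]
    refine Finset.sum_congr rfl fun w _ => ?_
    rw [Pi.add_apply]
    ring
  map_smul' c f := by
    unfold pr
    rw [RingHom.id_apply, smul_eq_mul, Finset.mul_sum]
    refine Finset.sum_congr rfl fun w _ => ?_
    rw [Pi.smul_apply, smul_eq_mul]
    ring

/-- the pairing with `x` -/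
def prr (F : OForm K I) {m : ℕ} (x : (Fin m → I) → K) : ((Fin m → I) → K) →ₗ[K] K where
  toFun f := pr F x f
  map_add' f g := by
    unfold pr
    rw [← Finset.sum_add_distrib]
    refine Finset.sum_congr rfl fun w _ => ?_
    rw [Pi.add_apply]
    ring
  map_smul' c f := by
    unfold pr
    rw [RingHom.id_apply, smul_eq_mul, Finset.mul_sum]
    refine Finset.sum_congr rfl fun w _ => ?_
    rw [Pi.smul_apply, smul_eq_mul]
    ring

/-- the linear map of a permutation -/
def acK (o : I → Bool) {m : ℕ} (σ : Equiv.Perm (Fin m)) :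
    ((Fin m → I) → K) →ₗ[K] ((Fin m → I) → K) where
  toFun := ac o σ
  map_add' f g := by
    funext w
    show kap o σ w * (f _ + g _) = kap o σ w * f _ + kap o σ w * g _
    ring
  map_smul' c f := by
    funext w
    show kap o σ w * (c * f _) = c * (kap o σ w * f _)
    ring

/-- the representation -/
theorem exists_rho (hACT : T_ACT) (o : I → Bool) {z : K} (hz : z = 1 ∨ z = -1) (m a : ℕ) :
    ∃ ρ : Equiv.Perm {i : Fin m // i.1 < a} →* Module.End K ((Fin m → I) → K),
      ∀ g f, ρ g f = chi z g • ac o (Equiv.Perm.ofSubtype g) f := by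
  refine ⟨{ toFun := fun g => chi z g • acK o (Equiv.Perm.ofSubtype g)
            map_one' := ?_
            map_mul' := ?_ }, ?_⟩
  · refine LinearMap.ext fun f => ?_
    show chi z _ • ac o _ f = f
    rw [chi_one, one_smul, map_one, (hACT K I o m).2.1]
  · intro g h
    refine LinearMap.ext fun f => ?_
    show chi z _ • ac o _ f = chi z g • ac o _ (chi z h • ac o _ f)
    rw [chi_mul hz, map_mul, (hACT K I o m).1]
    have := (acK (K := K) o (Equiv.Perm.ofSubtype g)).map_smul (chi z h)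
      (ac o (Equiv.Perm.ofSubtype h) f)
    have h2 : ac o (Equiv.Perm.ofSubtype g) (chi z h • ac o (Equiv.Perm.ofSubtype h) f) =
      chi z h • ac o (Equiv.Perm.ofSubtype g) (ac o (Equiv.Perm.ofSubtype h) f) := this
    rw [h2, mul_smul]
  · intro g f
    rfl

end lin

section core

variable {K : Type} [Field K] [CharZero K] {J E : Type} [Fintype J] [DecidableEq J]
  [Fintype E] [DecidableEq E] (F : OForm K J) (G : OForm K E)
  (A : ℕ → Submodule ℚ (List (J ⊕ E) → K))

/-- the numerically trivial functions -/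
def RR (k a : ℕ) : Submodule K ((Fin (2 * k) → J ⊕ E) → K) where
  carrier := {f | NT F G A k a f}
  add_mem' := by
    intro f g hf hg y hy hya
    show prl (osum F G) y (f + g) = 0
    rw [map_add]
    show pr (osum F G) f y + pr (osum F G) g y = 0
    rw [hf y hy hya, hg y hy hya, add_zero]
  zero_mem' := fun y _ _ => (prl (osum F G) y).map_zero
  smul_mem' := by
    intro c f hf y hy hya
    show prl (osum F G) y (c • f) = 0
    rw [map_smul]
    show c * pr (osum F G) f y = 0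
    rw [hf y hy hya, mul_zero]

theorem stab (hAFA : T_AFA) (hTYB : T_TYB) (hPRF : T_PRF) (hA : MCal F G A) {k a : ℕ}
    (ha : a ≤ 2 * k) (σ : Equiv.Perm (Fin (2 * k))) (hσ : ∀ i, (σ i).1 < a ↔ i.1 < a)
    (y : (Fin (2 * k) → J ⊕ E) → K) (hy : rvf y ∈ Af A k) (hya : Tyf a y) :
    rvf (ac (osum F G).o σ y) ∈ Af A k ∧ Tyf a (ac (osum F G).o σ y) := by
  constructor
  · rw [(hPRF K (J ⊕ E) (osum F G) (2 * k)).2.2.1]
    exact (hAFA K (J ⊕ E) _ _ _ A hA.calculus).2 k _ _ hy
  · exact (hTYB K J E (2 * k) a ha).2.1 _ σ y hσ hya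

theorem lt_inv {m a : ℕ} (σ : Equiv.Perm (Fin m)) (hσ : ∀ i, (σ i).1 < a ↔ i.1 < a) (i : Fin m) :
    (σ⁻¹ i).1 < a ↔ i.1 < a := by
  have := hσ (σ⁻¹ i)
  have h2 : σ (σ⁻¹ i) = i := σ.apply_symm_apply i
  rw [h2] at this
  exact this.symm

theorem lt_of_HL {m a : ℕ} {L : Finset (Fin m)} (hL : ∀ i ∈ L, i.1 < a) (σ : Equiv.Perm (Fin m))
    (hσ : σ ∈ HL L) (i : Fin m) : (σ i).1 < a ↔ i.1 < a := by
  have h : ∀ i, i ∉ L → σ i = i := mem_HL.1 hσ
  by_cases h1 : i ∈ L
  · refine ⟨fun _ => hL i h1, fun _ => ?_⟩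
    by_contra h2
    have h3 : σ i ∉ L := fun h3 => h2 (hL _ h3)
    have h4 := σ.injective (h _ h3)
    rw [h4] at h3
    exact h3 h1
  · rw [h i h1]

theorem lt_ofSubtype {m a : ℕ} (g : Equiv.Perm {i : Fin m // i.1 < a}) (i : Fin m) :
    (Equiv.Perm.ofSubtype g i).1 < a ↔ i.1 < a := by
  by_cases h : i.1 < a
  · have h1 : Equiv.Perm.ofSubtype g i = (g ⟨i, h⟩ : Fin m) :=
      Equiv.Perm.ofSubtype_apply_of_mem g h
    rw [h1]
    exact ⟨fun _ => h, fun _ => (g ⟨i, h⟩).2⟩
  · rw [Equiv.Perm.ofSubtype_apply_of_not_mem g h]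

theorem sum_HL {m a : ℕ} (z : K) (L : Finset {i : Fin m // i.1 < a})
    (f : Equiv.Perm (Fin m) → K) :
    ∑ σ ∈ HL L, chi z σ * f (Equiv.Perm.ofSubtype σ) =
      ∑ σ ∈ HL (L.map (Function.Embedding.subtype _)), chi z σ * f σ := by
  refine Finset.sum_bij (fun σ _ => Equiv.Perm.ofSubtype σ) ?_ ?_ ?_ ?_
  · intro σ hσ
    have h : ∀ i, i ∉ L → σ i = i := mem_HL.1 hσ
    refine mem_HL.2 fun i hi => ?_
    by_cases h1 : i.1 < a
    · have h2 : Equiv.Perm.ofSubtype σ i = (σ ⟨i, h1⟩ : Fin m) :=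
        Equiv.Perm.ofSubtype_apply_of_mem σ h1
      rw [h2, h ⟨i, h1⟩]
      intro h3
      exact hi (Finset.mem_map.2 ⟨_, h3, rfl⟩)
    · exact Equiv.Perm.ofSubtype_apply_of_not_mem σ h1
  · intro σ _ τ _ h
    exact Equiv.Perm.ofSubtype_injective h
  · intro σ hσ
    have hL : ∀ i ∈ L.map (Function.Embedding.subtype _), i.1 < a := by
      intro i hi
      obtain ⟨j, -, rfl⟩ := Finset.mem_map.1 hi
      exact j.2
    have h : ∀ i, i ∉ L.map (Function.Embedding.subtype _) → σ i = i :=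
      mem_HL.1 hσ
    have h1 : ∀ i, (σ i).1 < a ↔ i.1 < a := lt_of_HL hL σ hσ
    have h2 : ∀ i, σ i ≠ i → i.1 < a := by
      intro i hi
      by_contra h3
      exact hi (h i fun h4 => h3 (hL i h4))
    refine ⟨Equiv.Perm.subtypePerm σ h1, mem_HL.2 fun i hi => ?_,
      Equiv.Perm.ofSubtype_subtypePerm h1 h2⟩
    apply Subtype.ext
    rw [Equiv.Perm.subtypePerm_apply]
    apply h
    intro h3
    obtain ⟨j, hj, hji⟩ := Finset.mem_map.1 h3
    have : j = i := Subtype.ext hji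
    rw [this] at hj
    exact hi hj
  · intro σ _
    unfold chi
    rw [Equiv.Perm.sign_ofSubtype]

theorem core (hACT : T_ACT) (hAFA : T_AFA) (hTYB : T_TYB) (hPRF : T_PRF) (hSTA : T_STA)
    (hA : MCal F G A) {z : K} (hz : z = 1 ∨ z = -1) {k a : ℕ} (ha1 : 1 ≤ a) (ha : a ≤ 2 * k)
    (c : ℤ) (hc : (c : K) = z * (1 - F.sd)) (n : ℕ) (x : (Fin (2 * k) → J ⊕ E) → K)
    (h1 : Star F G A k a x)
    (h2 : ∀ y, rvf y ∈ Af A k → Tyf a y → ∀ L : Finset (Fin (2 * k)), L.card = n + 1 →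
      (∀ i ∈ L, i.1 < a) → ∑ σ ∈ HL L, chi z σ * pr (osum F G) (ac (osum F G).o σ x) y = 0)
    (hx : ¬ NT F G A k a x) : ∃ l : ℕ, 1 ≤ l ∧ l ≤ n ∧ (a : ℤ) = l * (l - c) := by
  obtain ⟨ρ, hρ⟩ := exists_rho hACT (osum F G).o hz (2 * k) a
  have hcard : Fintype.card {i : Fin (2 * k) // i.1 < a} = a := Fintype.card_fin_lt_of_le ha
  have h := hSTA K {i : Fin (2 * k) // i.1 < a} ((Fin (2 * k) → J ⊕ E) → K) ρ (RR F G A k a)
    ?_ x c n ?_ ?_ ?_ hx
  · rwa [hcard] at h
  · intro g v hv y hy hya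
    rw [hρ]
    have hs := stab F G A hAFA hTYB hPRF hA ha (Equiv.Perm.ofSubtype g)⁻¹
      (lt_inv _ (lt_ofSubtype g)) y hy hya
    show prl (osum F G) y (chi z g • ac _ _ v) = 0
    rw [map_smul]
    show chi z g * pr (osum F G) (ac (osum F G).o _ v) y = 0
    rw [(hPRF K (J ⊕ E) (osum F G) (2 * k)).2.1, hv _ hs.1 hs.2, mul_zero]
  · intro j y hy hya
    show prl (osum F G) y _ = 0
    rw [map_sub, map_sum, map_smul]
    have e1 : ∑ i ∈ Finset.univ.erase j, prl (osum F G) y (ρ (Equiv.swap i j) x) =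
        ∑ i ∈ Finset.univ.erase j, z * pr (osum F G)
          (ac (osum F G).o (Equiv.swap (i : Fin (2 * k)) j) x) y := by
      refine Finset.sum_congr rfl fun i hi => ?_
      rw [hρ, map_smul, chi_swap z (Finset.ne_of_mem_erase hi), Equiv.Perm.ofSubtype_swap_eq]
      rfl
    have e2 : ∑ i ∈ Finset.univ.erase j, z * pr (osum F G)
          (ac (osum F G).o (Equiv.swap (i : Fin (2 * k)) j) x) y =
        ∑ i ∈ Finset.univ.filter (fun i : Fin (2 * k) => i.1 < a ∧ i ≠ j), z * pr (osum F G)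
          (ac (osum F G).o (Equiv.swap i j) x) y := by
      have e3 : Finset.univ.filter (fun i : Fin (2 * k) => i.1 < a ∧ i ≠ j) =
          (Finset.univ.erase j).map (Function.Embedding.subtype _) := by
        ext i
        simp only [Finset.mem_filter, Finset.mem_univ, true_and, Finset.mem_map,
          Finset.mem_erase, and_true, Function.Embedding.subtype_apply]
        constructor
        · rintro ⟨h1, h2⟩
          exact ⟨⟨i, h1⟩, fun h => h2 (congrArg Subtype.val h), rfl⟩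
        · rintro ⟨i', h1, rfl⟩
          exact ⟨i'.2, fun h => h1 (Subtype.ext h)⟩
      rw [e3, Finset.sum_map]
      rfl
    rw [e1, e2, ← Finset.mul_sum, h1 j j.2 y hy hya, hc]
    show z * ((1 - F.sd) * pr (osum F G) x y) - z * (1 - F.sd) * pr (osum F G) x y = 0
    ring
  · intro L hL y hy hya
    show prl (osum F G) y _ = 0
    rw [map_sum]
    have e1 : ∑ σ ∈ HL L, prl (osum F G) y (ρ σ x) = ∑ σ ∈ HL L, chi z σ *
        (fun τ => pr (osum F G) (ac (osum F G).o τ x) y) (Equiv.Perm.ofSubtype σ) := by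
      refine Finset.sum_congr rfl fun σ _ => ?_
      rw [hρ, map_smul]
      rfl
    rw [e1, sum_HL z L (fun τ => pr (osum F G) (ac (osum F G).o τ x) y)]
    refine h2 y hy hya _ (by rw [Finset.card_map, hL]) ?_
    intro i hi
    obtain ⟨j, -, rfl⟩ := Finset.mem_map.1 hi
    exact j.2
  · rw [hcard]
    exact ha1

theorem type_zero (hACT : T_ACT) (hTYB : T_TYB) (z : K) (b k : ℕ)
    (x : (Fin (2 * k) → J ⊕ E) → K) (hOT : OT F G A z b k 0 x) : NT F G A k 0 x := by
  intro y hy hya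
  refine hOT y ?_ hya
  obtain ⟨t, ht, hty⟩ := hy
  apply Submodule.subset_span
  refine ⟨0, Nat.zero_le _, t, ht, Or.inl ?_, 1, ?_⟩
  · show Ty (2 * k) 0 t
    rw [(hTYB K J E (2 * k) 0 (Nat.zero_le _)).1, hty]
    intro w hw i
    have h := hya _ hw i.rev
    rw [Fin.rev_rev] at h
    rw [h]
    simp
  · rw [(hACT K (J ⊕ E) (osum F G).o (2 * k)).2.1, ← hty]
    funext w
    show t _ = 1 * t _
    rw [one_mul]
    rfl

end core

/-- INO -/
theorem pf_INO (hACT : T_ACT) (hAFA : T_AFA) (hTYB : T_TYB) (hPRF : T_PRF) (hSTP : Pool.Agent.H64.FTM.T_STP)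
    (hSTA : T_STA) : T_INO := by
  intro K _ _ J E _ _ _ _ F G A hA hM b hsd hKM k
  induction k with
  | zero =>
    intro a ha x _ _ hOT
    obtain rfl : a = 0 := by omega
    exact type_zero F G A hACT hTYB 1 b 0 x hOT
  | succ k ih =>
    intro a ha x hx hxa hOT
    rcases Nat.eq_zero_or_pos a with rfl | ha1
    · exact type_zero F G A hACT hTYB 1 b (k + 1) x hOT
    · have hst : Star F G A (k + 1) a x := hSTP K J E F G A hA hM 1 b (k + 1) a ha1 ha
        (fun h2 => ih (a - 2) (by omega)) x hx hxa hOT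
      by_contra hn
      obtain ⟨l, h1, h2, h3⟩ := core F G A hACT hAFA hTYB hPRF hSTA hA (Or.inl rfl) ha1 ha
        (1 + b) (by push_cast; rw [hsd]; ring) b x hst
        (fun y hy hya L hL hLa => hKM (k + 1) a x y hx hy hxa hya ha L hL hLa) hn
      have h4 : (1 : ℤ) ≤ l := by exact_mod_cast h1
      have h5 : (l : ℤ) ≤ b := by exact_mod_cast h2
      have h6 : (0 : ℤ) < a := by exact_mod_cast ha1
      nlinarith

section alt

variable {K : Type} [Field K] [CharZero K] {J E : Type} [Fintype J] [DecidableEq J]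
  [Fintype E] [DecidableEq E] (F : OForm K J) (G : OForm K E)
  (A : ℕ → Submodule ℚ (List (J ⊕ E) → K))

theorem mul_HL {α : Type} [Fintype α] [DecidableEq α] {L : Finset α} {σ τ : Equiv.Perm α}
    (h : τ ∈ HL L) : σ ∈ HL L ↔ τ * σ ∈ HL L := by
  rw [mem_HL] at h
  rw [mem_HL, mem_HL]
  constructor
  · intro h1 i hi
    rw [Equiv.Perm.mul_apply, h1 i hi, h i hi]
  · intro h1 i hi
    have h2 := h1 i hi
    rw [Equiv.Perm.mul_apply] at h2
    apply τ.injective
    rw [h2, h i hi]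

theorem inv_HL {α : Type} [Fintype α] [DecidableEq α] {L : Finset α} {σ : Equiv.Perm α} :
    σ ∈ HL L ↔ σ⁻¹ ∈ HL L := by
  rw [mem_HL, mem_HL]
  constructor
  · intro h i hi
    rw [Equiv.Perm.inv_eq_iff_eq, h i hi]
  · intro h i hi
    have := h i hi
    rw [Equiv.Perm.inv_eq_iff_eq] at this
    exact this.symm

theorem swap_HL {α : Type} [Fintype α] [DecidableEq α] {L : Finset α} {i j : α} (hi : i ∈ L)
    (hj : j ∈ L) : Equiv.swap i j ∈ HL L := by
  rw [mem_HL]
  intro l hl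
  exact Equiv.swap_apply_of_ne_of_ne (fun h => hl (h ▸ hi)) fun h => hl (h ▸ hj)

variable {I : Type} [Fintype I] [DecidableEq I]

/-- the antisymmetrization -/
def Alt (K : Type) [Field K] (o : I → Bool) {m : ℕ} (L : Finset (Fin m)) :
    ((Fin m → I) → K) →ₗ[K] ((Fin m → I) → K) :=
  ∑ σ ∈ HL L, chi (-1 : K) σ • acK o σ

theorem Alt_apply (o : I → Bool) {m : ℕ} (L : Finset (Fin m)) (f : (Fin m → I) → K) :
    Alt K o L f = ∑ σ ∈ HL L, chi (-1 : K) σ • ac o σ f := by
  unfold Alt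
  rw [LinearMap.sum_apply]
  rfl

theorem ac_Alt (hACT : T_ACT) (o : I → Bool) {m : ℕ} (L : Finset (Fin m))
    (f : (Fin m → I) → K) (τ : Equiv.Perm (Fin m)) (hτ : τ ∈ HL L) :
    ac o τ (Alt K o L f) = chi (-1 : K) τ • Alt K o L f := by
  rw [Alt_apply]
  show acK o τ _ = _
  rw [map_sum, Finset.smul_sum]
  refine Finset.sum_equiv (Equiv.mulLeft τ) (fun σ => mul_HL hτ) fun σ _ => ?_
  rw [map_smul, Equiv.coe_mulLeft, chi_mul (Or.inr rfl), smul_smul, ← mul_assoc,
    chi_sq (Or.inr rfl), one_mul, (hACT K I o m).1]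
  rfl

theorem Alt_Alt (hACT : T_ACT) (o : I → Bool) {m : ℕ} (L : Finset (Fin m))
    (f : (Fin m → I) → K) :
    Alt K o L (Alt K o L f) = ((HL L).card : K) • Alt K o L f := by
  conv_lhs => rw [Alt_apply]
  rw [Finset.sum_congr rfl fun σ hσ => by
    rw [ac_Alt hACT o L f σ hσ, smul_smul, chi_sq (Or.inr rfl), one_smul]]
  rw [Finset.sum_const, Nat.cast_smul_eq_nsmul]

theorem pr_Alt (hPRF : T_PRF) (F : OForm K I) {m : ℕ} (L : Finset (Fin m))
    (x y : (Fin m → I) → K) : pr F (Alt K F.o L x) y = pr F x (Alt K F.o L y) := by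
  show prl F y _ = prr F x _
  rw [Alt_apply, Alt_apply, map_sum, map_sum]
  refine Finset.sum_equiv (Equiv.inv _) (fun σ => inv_HL) fun σ _ => ?_
  rw [map_smul, map_smul, Equiv.inv_apply, chi_inv]
  show _ * pr F (ac F.o σ x) y = _ * pr F x (ac F.o σ⁻¹ y)
  rw [(hPRF K I F m).2.1]

theorem kap_rev (hKAP : T_KAP) (o : I → Bool) (m j : ℕ) (h : j + 1 < m) (w : Fin m → I) :
    kap (K := K) o Fin.revPerm
      (fun i => w (Equiv.swap ⟨j, Nat.lt_of_succ_lt h⟩ ⟨j + 1, h⟩ i)) = kap o Fin.revPerm w := by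
  obtain ⟨c1, -, c3, c4⟩ := hKAP K I o m
  have hj' : m - 2 - j + 1 < m := by omega
  have e1 := c1 (Equiv.swap ⟨j, Nat.lt_of_succ_lt h⟩ ⟨j + 1, h⟩) Fin.revPerm w
  have e2 := c1 Fin.revPerm
    (Equiv.swap ⟨m - 2 - j, Nat.lt_of_succ_lt hj'⟩ ⟨m - 2 - j + 1, hj'⟩) w
  have r1 : Fin.revPerm (⟨m - 2 - j, Nat.lt_of_succ_lt hj'⟩ : Fin m) = ⟨j + 1, h⟩ := by
    apply Fin.ext
    show m - (m - 2 - j + 1) = j + 1
    omega
  have r2 : Fin.revPerm (⟨m - 2 - j + 1, hj'⟩ : Fin m) = ⟨j, Nat.lt_of_succ_lt h⟩ := by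
    apply Fin.ext
    show m - (m - 2 - j + 1 + 1) = j
    omega
  rw [Equiv.mul_swap_eq_swap_mul, r1, r2, Equiv.swap_comm, e1, c4, c4, r1, r2,
    ks_comm K (o (w ⟨j + 1, h⟩))] at e2
  have e3 := ks_mul_self (K := K) (o (w ⟨j, Nat.lt_of_succ_lt h⟩)) (o (w ⟨j + 1, h⟩))
  linear_combination (ks K (o (w ⟨j, Nat.lt_of_succ_lt h⟩)) (o (w ⟨j + 1, h⟩))) * e2 +
    (kap o Fin.revPerm w - kap (K := K) o Fin.revPerm
      (fun i => w (Equiv.swap ⟨j, Nat.lt_of_succ_lt h⟩ ⟨j + 1, h⟩ i))) * e3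

theorem tau_alt (hKAP : T_KAP) (hACT : T_ACT) (hAFA : T_AFA) (hTYB : T_TYB) (hA : MCal F G A)
    {b k : ℕ} (hb : b ≤ 2 * k) (Y : (Fin (2 * k) → J ⊕ E) → K) (hY : rvf Y ∈ Af A k)
    (hYb : Tyf b Y)
    (hs : ∀ (j : ℕ) (h : j + 1 < 2 * k), j + 2 ≤ b →
      ac (osum F G).o (Equiv.swap ⟨j, Nat.lt_of_succ_lt h⟩ ⟨j + 1, h⟩) Y = -Y) :
    rvf Y ∈ Tau F G A (-1) b k := by
  have hu : ∀ w, ac (osum F G).o Fin.revPerm (rvf Y) w =
      kap (osum F G).o Fin.revPerm w * Y w := by
    intro w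
    show kap (osum F G).o Fin.revPerm w * Y (fun i => w (Fin.rev (Fin.rev i))) = _
    simp only [Fin.rev_rev]
  obtain ⟨t, ht, hty⟩ := (hAFA K (J ⊕ E) _ _ _ A hA.calculus).2 k Fin.revPerm _ hY
  apply Submodule.subset_span
  refine ⟨0, Nat.zero_le _, t, ht, Or.inr ⟨rfl, hb, ?_, ?_⟩, Fin.revPerm, ?_⟩
  · show Ty (2 * k) b t
    rw [(hTYB K J E (2 * k) b hb).1, hty]
    intro w hw
    rw [hu] at hw
    exact hYb w (right_ne_zero_of_mul hw)
  · intro j hj w hw
    have hj2 : j + 1 < 2 * k := by omega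
    have h1 := (hACT K (J ⊕ E) (osum F G).o (2 * k)).2.2.1 j hj2 t
    have hw' : w.length = 2 * k := hw
    obtain ⟨v, rfl⟩ : ∃ v : Fin (2 * k) → J ⊕ E, List.ofFn v = w :=
      ⟨fun i => w.get (i.cast hw'.symm), by
        apply List.ext_get
        · simp [hw']
        · intro n h1 h2
          simp⟩
    have h2 := congrFun h1 v
    have h3 := congrFun (hs j hj2 hj) v
    have h4 : t (List.ofFn v) = kap (osum F G).o Fin.revPerm v * Y v := by
      rw [← hu]
      exact congrFun hty v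
    show ev (2 * k) (sw (osum F G).o j t) v = _
    rw [h2, hty, h4]
    show kap (osum F G).o _ v * ac (osum F G).o Fin.revPerm (rvf Y) _ = _
    rw [hu, kap_rev hKAP]
    have h5 : kap (osum F G).o (Equiv.swap ⟨j, Nat.lt_of_succ_lt hj2⟩ ⟨j + 1, hj2⟩) v *
      Y (fun i => v (Equiv.swap ⟨j, Nat.lt_of_succ_lt hj2⟩ ⟨j + 1, hj2⟩ i)) = -Y v := h3
    linear_combination (kap (osum F G).o Fin.revPerm v) * h5
  · have h1 : ev (2 * k) (tp (2 * 0) (omk (Om F E) 0) t) =
        ac (osum F G).o Fin.revPerm (rvf Y) := by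
      rw [← hty]
      funext w
      show 1 * t _ = t _
      rw [one_mul]
      rfl
    rw [h1, ← (hACT K (J ⊕ E) (osum F G).o (2 * k)).1]
    have h2 : (Fin.revPerm * Fin.revPerm : Equiv.Perm (Fin (2 * k))) = 1 := by
      ext i
      show (Fin.rev (Fin.rev i)).1 = i.1
      rw [Fin.rev_rev]
    rw [h2, (hACT K (J ⊕ E) (osum F G).o (2 * k)).2.1]

theorem alt_case (hKAP : T_KAP) (hACT : T_ACT) (hAFA : T_AFA) (hTYB : T_TYB) (hPRF : T_PRF)
    (hSTA : T_STA) (hA : MCal F G A) {b k : ℕ} (hb1 : 1 ≤ b) (hb : b ≤ 2 * k)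
    (hsd : F.sd = (b : K)) (x : (Fin (2 * k) → J ⊕ E) → K)
    (hOT : OT F G A (-1) b k b x) (hst : Star F G A k b x) : NT F G A k b x := by
  obtain ⟨L, hL⟩ : ∃ L : Finset (Fin (2 * k)),
      L = Finset.univ.filter (fun i : Fin (2 * k) => i.1 < b) := ⟨_, rfl⟩
  have hmem : ∀ i : Fin (2 * k), i ∈ L ↔ i.1 < b := by
    intro i
    rw [hL, Finset.mem_filter]
    exact ⟨fun h => h.2, fun h => ⟨Finset.mem_univ _, h⟩⟩
  have hLc : L.card = b := by
    have := Fintype.card_fin_lt_of_le hb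
    rw [Fintype.card_subtype] at this
    rw [hL]
    exact this
  have hN : ((HL L).card : K) ≠ 0 := by
    have h1 : (1 : Equiv.Perm (Fin (2 * k))) ∈ HL L := mem_HL.2 fun _ _ => rfl
    exact_mod_cast (Finset.card_pos.2 ⟨1, h1⟩).ne'
  have key : ∀ y, rvf y ∈ Af A k → Tyf b y → pr (osum F G) x (Alt K (osum F G).o L y) = 0 := by
    intro y hy hyb
    have hst : ∀ σ ∈ HL L, rvf (ac (osum F G).o σ y) ∈ Af A k ∧ Tyf b (ac (osum F G).o σ y) :=
      fun σ hσ => stab F G A hAFA hTYB hPRF hA hb σ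
        (lt_of_HL (fun i hi => (hmem i).1 hi) σ hσ) y hy hyb
    have htype : Tyf b (Alt K (osum F G).o L y) := by
      intro w hw
      rw [Alt_apply, Finset.sum_apply] at hw
      obtain ⟨σ, hσ, h1⟩ := Finset.exists_ne_zero_of_sum_ne_zero hw
      exact (hst σ hσ).2 w fun h => h1 (by rw [Pi.smul_apply, h, smul_zero])
    refine hOT _ (tau_alt F G A hKAP hACT hAFA hTYB hA hb _ ?_ htype ?_) htype
    · have h1 : rvf (Alt K (osum F G).o L y) =
          ∑ σ ∈ HL L, chi (-1 : K) σ • rvf (ac (osum F G).o σ y) := by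
        funext w
        unfold rvf
        rw [Alt_apply, Finset.sum_apply, Finset.sum_apply]
        rfl
      rw [h1]
      refine Submodule.sum_mem _ fun σ hσ => ?_
      unfold chi
      split_ifs
      · rw [one_smul]
        exact (hst σ hσ).1
      · rw [neg_one_smul]
        exact Submodule.neg_mem _ (hst σ hσ).1
    · intro j h hj
      rw [ac_Alt hACT, chi_swap, neg_one_smul]
      · intro h1
        have := congrArg Fin.val h1
        simp at this
      · refine swap_HL ((hmem _).2 ?_) ((hmem _).2 ?_)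
        · show j < b
          omega
        · show j + 1 < b
          omega
  have H1 : Pool.Agent.H64.FTM.Star F G A k b
      (x - ((HL L).card : K)⁻¹ • Alt K (osum F G).o L x) := by
    intro j hj y hy hyb
    have e1 : ∀ i ∈ Finset.univ.filter (fun i : Fin (2 * k) => i.1 < b ∧ i ≠ j),
        pr (osum F G) (ac (osum F G).o (Equiv.swap i j)
          (x - ((HL L).card : K)⁻¹ • Alt K (osum F G).o L x)) y =
        pr (osum F G) (ac (osum F G).o (Equiv.swap i j) x) y +
          ((HL L).card : K)⁻¹ * pr (osum F G) (Alt K (osum F G).o L x) y := by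
      intro i hi
      obtain ⟨-, h1, h2⟩ := Finset.mem_filter.1 hi
      show prl (osum F G) y (acK (osum F G).o (Equiv.swap i j) _) = _
      rw [map_sub, map_smul]
      have h3 : acK (osum F G).o (Equiv.swap i j) (Alt K (osum F G).o L x) =
          -Alt K (osum F G).o L x := by
        show ac (osum F G).o (Equiv.swap i j) _ = _
        rw [ac_Alt hACT _ _ _ _ (swap_HL ((hmem i).2 h1) ((hmem j).2 hj)), chi_swap _ h2,
          neg_one_smul]
      rw [h3, smul_neg, sub_neg_eq_add, map_add, map_smul]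
      rfl
    have e2 : (Finset.univ.filter (fun i : Fin (2 * k) => i.1 < b ∧ i ≠ j)).card = b - 1 := by
      have : Finset.univ.filter (fun i : Fin (2 * k) => i.1 < b ∧ i ≠ j) = L.erase j := by
        ext i
        rw [Finset.mem_filter, Finset.mem_erase, hmem]
        constructor
        · rintro ⟨-, h1, h2⟩
          exact ⟨h2, h1⟩
        · rintro ⟨h1, h2⟩
          exact ⟨Finset.mem_univ _, h2, h1⟩
      rw [this, Finset.card_erase_of_mem ((hmem j).2 hj), hLc]
    rw [Finset.sum_congr rfl e1, Finset.sum_add_distrib, hst j hj y hy hyb, Finset.sum_const,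
      e2, nsmul_eq_mul, Nat.cast_sub hb1, hsd]
    have e3 : pr (osum F G) (x - ((HL L).card : K)⁻¹ • Alt K (osum F G).o L x) y =
        pr (osum F G) x y - ((HL L).card : K)⁻¹ *
          pr (osum F G) (Alt K (osum F G).o L x) y := by
      show prl (osum F G) y _ = _
      rw [map_sub, map_smul]
      rfl
    rw [e3]
    push_cast
    ring_nf
  have H2 : ∀ y, rvf y ∈ Af A k → Tyf b y → ∀ L' : Finset (Fin (2 * k)),
      L'.card = b - 1 + 1 → (∀ i ∈ L', i.1 < b) → ∑ σ ∈ HL L', chi (-1 : K) σ *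
        pr (osum F G) (ac (osum F G).o σ
          (x - ((HL L).card : K)⁻¹ • Alt K (osum F G).o L x)) y = 0 := by
    intro y _ _ L' hL' hLb
    have hLL : L' = L := by
      refine Finset.eq_of_subset_of_card_le (fun i hi => (hmem i).2 (hLb i hi)) ?_
      rw [hL', hLc]
      omega
    subst hLL
    have e1 : ∑ σ ∈ HL L', chi (-1 : K) σ * pr (osum F G) (ac (osum F G).o σ
        (x - ((HL L').card : K)⁻¹ • Alt K (osum F G).o L' x)) y =
        prl (osum F G) y (Alt K (osum F G).o L'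
          (x - ((HL L').card : K)⁻¹ • Alt K (osum F G).o L' x)) := by
      rw [Alt_apply (osum F G).o L' (x - ((HL L').card : K)⁻¹ • Alt K (osum F G).o L' x),
        map_sum]
      refine Finset.sum_congr rfl fun σ _ => ?_
      rw [map_smul]
      rfl
    rw [e1, map_sub, map_smul, Alt_Alt hACT, smul_smul, inv_mul_cancel₀ hN, one_smul, sub_self,
      map_zero]
  have hx' : NT F G A k b (x - ((HL L).card : K)⁻¹ • Alt K (osum F G).o L x) := by
    by_contra hn
    obtain ⟨l, h1, h2, h3⟩ := core F G A hACT hAFA hTYB hPRF hSTA hA (Or.inr rfl) hb1 hb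
      ((b : ℤ) - 1) (by push_cast; rw [hsd]; ring) (b - 1) _ H1 H2 hn
    have h4 : (1 : ℤ) ≤ l := by exact_mod_cast h1
    have h5 : (l : ℤ) + 1 ≤ b := by
      have : l + 1 ≤ b := by omega
      exact_mod_cast this
    have h6 : (0 : ℤ) < b := by exact_mod_cast hb1
    nlinarith
  intro y hy hyb
  have h1 := hx' y hy hyb
  have e3 : pr (osum F G) (x - ((HL L).card : K)⁻¹ • Alt K (osum F G).o L x) y =
      pr (osum F G) x y - ((HL L).card : K)⁻¹ *
        pr (osum F G) (Alt K (osum F G).o L x) y := by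
    show prl (osum F G) y _ = _
    rw [map_sub, map_smul]
    rfl
  rw [e3, pr_Alt hPRF, key y hy hyb, mul_zero, sub_zero] at h1
  exact h1

end alt

/-- INE -/
theorem pf_INE (hKAP : T_KAP) (hACT : T_ACT) (hAFA : T_AFA) (hTYB : T_TYB) (hPRF : T_PRF)
    (hSTP : Pool.Agent.H64.FTM.T_STP) (hSTA : T_STA) : T_INE := by
  intro K _ _ J E _ _ _ _ F G A hA hM b hsd hKM k
  induction k with
  | zero =>
    intro a ha x _ _ hOT
    obtain rfl : a = 0 := by omega
    exact type_zero F G A hACT hTYB (-1) b 0 x hOT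
  | succ k ih =>
    intro a ha x hx hxa hOT
    rcases Nat.eq_zero_or_pos a with rfl | ha1
    · exact type_zero F G A hACT hTYB (-1) b (k + 1) x hOT
    · have hst : Star F G A (k + 1) a x := hSTP K J E F G A hA hM (-1) b (k + 1) a ha1 ha
        (fun h2 => ih (a - 2) (by omega)) x hx hxa hOT
      by_cases hab : a = b
      · subst hab
        exact alt_case F G A hKAP hACT hAFA hTYB hPRF hSTA hA ha1 ha hsd x hOT hst
      · by_contra hn
        obtain ⟨l, h1, h2, h3⟩ := core F G A hACT hAFA hTYB hPRF hSTA hA (Or.inr rfl) ha1 ha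
          ((b : ℤ) - 1) (by push_cast; rw [hsd]; ring) b x hst
          (fun y hy hya L hL hLa => hKM (k + 1) a x y hx hy hxa hya ha L hL hLa) hn
        have h4 : (1 : ℤ) ≤ l := by exact_mod_cast h1
        have h6 : (0 : ℤ) < a := by exact_mod_cast ha1
        have h7 : l = b := by
          by_contra h8
          have h5 : (l : ℤ) + 1 ≤ b := by
            have : l + 1 ≤ b := by omega
            exact_mod_cast this
          nlinarith
        apply hab
        rw [h7] at h3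
        have h9 : (a : ℤ) = b := by
          rw [h3]
          ring
        exact_mod_cast h9

end Pool.Agent.H2.FTM
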